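import Pool.Agent.TH375.KL.Poly

/-!
# The residue formula: `H²`-averages of almost all members of a family of fibrations by surfaces

Let `F` be a polynomial over `ℤ` in `s`, four variables `x` (homogeneous of positive degree in them) and
`t_1, …, t_k`.  For an integer `s` let `X_s` be the fibration over the space of the `t` whose fibres are the
surfaces `F(s, x, t) = 0` in the projective space `P³`.  For a smooth surface `V` in `P³` over `F_p` the Frobenius
trace on `H²` is `#V(F_p) - p² - 1`.  For almost all `s` of an interval of length `N ≥ z²`, the Dirichlet polynomials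
`∑_{p ≤ x} B_p(X_s) log p p^(-w)`, `x ≤ z`, differ from the corresponding mean values over the family by an
amount that is bounded uniformly in `x ≤ z` and `w ≥ 2`.
-/

set_option autoImplicit false

namespace Pool.Agent.Results.MP_6090f9_nt.AlmostAllMembers

open scoped Classical in
/-- The number of zeros `(x, t)` modulo `p` of `F(s, x, t)` in the affine space of dimension `k + 4`; the first
variable of `F` is `s`. -/
noncomputable def zeros {k : ℕ} (F : MvPolynomial (Fin (k + 5)) ℤ) (p : ℕ) (s : ℤ) : ℕ :=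
  ((Fintype.piFinset fun _ : Fin (k + 4) => Finset.range p).filter fun u =>
    (p : ℤ) ∣ MvPolynomial.eval (Fin.cons s fun i => (u i : ℤ)) F).card

/-- The fibre average `B_p(X_s)`: the average over the `p^k` points `t` of the base of the number of points of the
projective surface `F(s, x, t) = 0` (the number of affine zeros minus one, divided by `p - 1`), minus
`p² + 1`. -/
noncomputable def fibreAverage {k : ℕ} (F : MvPolynomial (Fin (k + 5)) ℤ) (p : ℕ) (s : ℤ) : ℝ :=
  ((zeros F p s : ℝ) - (p : ℝ) ^ k) / ((p : ℝ) ^ k * ((p : ℝ) - 1)) - ((p : ℝ) ^ 2 + 1)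

/-- The mean value of `B_p(X_s)` over `s` modulo `p`. -/
noncomputable def familyAverage {k : ℕ} (F : MvPolynomial (Fin (k + 5)) ℤ) (p : ℕ) : ℝ :=
  (∑ s ∈ Finset.range p, fibreAverage F p s) / p

/-- The Dirichlet polynomial `∑_{p ≤ x} c_p log p p^(-w)`. -/
noncomputable def series (c : ℕ → ℝ) (x : ℕ) (w : ℝ) : ℝ :=
  ∑ p ∈ (Finset.range (x + 1)).filter Nat.Prime, c p * (Real.log p * (p : ℝ) ^ (-w))

section
open Pool.Agent.TH375.KL

/-- the normalised function -/
noncomputable def psi {k : ℕ} (F : MvPolynomial (Fin (k + 5)) ℤ) (p : ℕ) (s : ℤ) : ℝ :=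
  fibreAverage F p s / p

theorem zeros_per {k : ℕ} (F : MvPolynomial (Fin (k + 5)) ℤ) {p : ℕ} {s t : ℤ}
    (h : (p : ℤ) ∣ s - t) : zeros F p s = zeros F p t := by
  classical
  unfold zeros
  congr 1
  refine Finset.filter_congr fun u _ => ?_
  have h1 := cons_congr F h fun i => (u i : ℤ)
  exact ⟨fun h2 => by have := dvd_sub h2 h1; simpa using this, fun h2 => by
    have := dvd_add h1 h2; simpa using this⟩

theorem psi_per {k : ℕ} (F : MvPolynomial (Fin (k + 5)) ℤ) (p : ℕ) (s t : ℤ) (_ : p.Prime)
    (h : (p : ℤ) ∣ s - t) : psi F p s = psi F p t := by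
  unfold psi fibreAverage
  rw [zeros_per F h]

theorem mv_psi {k : ℕ} (F : MvPolynomial (Fin (k + 5)) ℤ) (p : ℕ) :
    mv (psi F) p = familyAverage F p / p := by
  unfold mv psi familyAverage
  rw [← Finset.sum_div]

theorem series_eq {k : ℕ} (F : MvPolynomial (Fin (k + 5)) ℤ) (s : ℤ) (x : ℕ) (w : ℝ) :
    series (fun p => fibreAverage F p s - familyAverage F p) x (w + 1) =
      ∑ p ∈ Prm x, (psi F p s - mv (psi F) p) * (Real.log p * (p : ℝ) ^ (-w)) := by
  unfold series Prm
  refine Finset.sum_congr rfl fun p hp => ?_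
  rw [Finset.mem_filter] at hp
  have hp0 : (0 : ℝ) < p := by exact_mod_cast hp.2.pos
  rw [mv_psi, psi, show -(w + 1) = -w + -1 by ring, Real.rpow_add hp0, Real.rpow_neg_one]
  field_simp

end

/-- **The residue formula for almost all members.**

There is an absolute constant `C` such that for all families `F`, `D ≥ 0`, `M`, `N`, `z`: if for all primes
`p ≤ z` the mean square of `B_p(X_s) / p` over `s` modulo `p` is at most `D`, then for every `K > 0`, for all but
at most `C (N + z²) / K` of the integers `s` in `(M, M + N]`, and for all `x ≤ z` and all real `w ≥ 2`,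
`(∑_{p ≤ x} (B_p(X_s) - β_p) log p p^(-w))² ≤ K D`, where `β_p` is the mean value over the family. -/
theorem result : ∃ C : ℝ, 0 < C ∧ ∀ (k : ℕ) (F : MvPolynomial (Fin (k + 5)) ℤ) (D : ℝ), 0 ≤ D →
    ∀ (M : ℤ) (N z : ℕ),
    (∀ p : ℕ, p.Prime → p ≤ z →
      (∑ s ∈ Finset.range p, (fibreAverage F p s / p) ^ 2) / p ≤ D) →
    ∀ K : ℝ, 0 < K →
    ({s : ℤ | M < s ∧ s ≤ M + N ∧ ∃ x : ℕ, x ≤ z ∧ ∃ w : ℝ, 2 ≤ w ∧
      K * D < series (fun p => fibreAverage F p s - familyAverage F p) x w ^ 2}.ncard : ℝ) ≤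
      C * (N + (z : ℝ) ^ 2) / K := by
  obtain ⟨C, hC, h⟩ := Pool.Agent.TH375.KL.few_series
  refine ⟨C, hC, fun k F D hD M N z hvar K hK => ?_⟩
  have h1 := h (psi F) (psi_per F) D hD M N z hvar K hK
  refine le_trans (le_of_eq ?_) h1
  congr 2
  ext s
  rw [Set.mem_ofPred_eq, Set.mem_ofPred_eq]
  refine and_congr_right fun _ => and_congr_right fun _ => exists_congr fun x =>
    and_congr_right fun _ => ?_
  constructor
  · rintro ⟨w, hw, h2⟩
    refine ⟨w - 1, by linarith, ?_⟩
    rw [← series_eq, sub_add_cancel]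
    exact h2
  · rintro ⟨w, hw, h2⟩
    refine ⟨w + 1, by linarith, ?_⟩
    rw [series_eq]
    exact h2

end Pool.Agent.Results.MP_6090f9_nt.AlmostAllMembers
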