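import Pool.Agent.TH958.NG.AvgB
import Pool.Agent.TH958.NG.Res

/-!
# The residue formula for the powers of the elliptic curves over the function fields of fibre powers

Let `a ∈ ℤ[u]`, `u = (u_t)_{t ∈ τ}`, be a nonzero polynomial and let `r ≥ 1`.  The ring

`RF r a = ℤ[u, x_1, ..., x_r, B][y_1, ..., y_r] / (y_i² = x_i³ + a(u) x_i + B)`

is the coordinate ring of the `r`-th fibre power, over the space of the parameters `(u, B)`, of the
affine family of curves `y² = x³ + a(u) x + B`.  Let `K` be its field of fractions, the function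
field of a variety over `ℚ` of dimension `e = #τ + r + 1 ≥ 2`, and let `E` be the elliptic curve
`Y² = X³ + a(u) X + B` over `K` (`EE a r`).  The generic fibre of the question is `X = E^m`.

For an elliptic curve `E_y` over `𝔽_p`, the trace of the Frobenius on `H²(E_y^m)` is
`m p + (m choose 2) a_p(E_y)²` (Künneth).  `avgB (EE a r) (NE a r) e m p` is the average
`𝔅_p = p^{-e} ∑_y b_p(E_y^m)` over the points `y` of the open part `6(4a³ + 27B²) ≠ 0` of
`Spec (RF r a)` with values in `𝔽_p`.  Every flat proper model of `X` over a smooth projective model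
`𝒴` of `K`, with good reduction outside a finite set `S` of primes, has averages `B_p` with
`B_p = 𝔅_p + O(p^{1/2})`.  The theorem is about all functions with this property.

The field of fractions `K'` of `RF (r + 1) a` is the function field `K(E)` of `E`.  As
`E(K(E)) = E(K) ⊕ End_K(E)`, the rank of `End_K(E)` is `rank E(K') - rank E(K)`, and the rank of
`NS(E^m)` over `K` is `m + (m choose 2) · rank End_K(E)`.
-/

set_option autoImplicit false

namespace Pool.Agent.Results.MP_6090f9_nt.FibrePowersSquares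

open Filter Topology
open Pool.Agent.TH958.FP Pool.Agent.TH958.An Pool.Agent.TH958.NG

/-- **The residue formula for the powers `E^m` of the elliptic curves over the function fields of
fibre powers.** -/
theorem result (τ : Type) [Fintype τ] (a : MvPolynomial τ ℤ) (ha : a ≠ 0) (r : ℕ) (hr : 0 < r)
    (K : Type) [Field K] [DecidableEq K] [Algebra (RF r a) K] [IsFractionRing (RF r a) K]
    (K' : Type) [Field K'] [DecidableEq K'] [Algebra (RF (r + 1) a) K']
    [IsFractionRing (RF (r + 1) a) K'] (m : ℕ)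
    (S : Finset Nat.Primes) (B : Nat.Primes → ℝ) (C : ℝ)
    (hB : ∀ p ∉ S,
      |B p - avgB (EE a r) (NE a r) (Fintype.card τ + r + 1) m p| ≤ C * Real.sqrt (p : ℕ)) :
    Module.finrank ℤ ((EE a (r + 1)).map (algebraMap (RF (r + 1) a) K')).toAffine.Point =
        Module.finrank ℤ ((EE a r).map (algebraMap (RF r a) K)).toAffine.Point + 1 ∧
    ∃ G : ℂ → ℂ,
      (∀ s : ℂ, 2 < s.re → HasSum (fun p : {p : Nat.Primes // p ∉ S} =>
        (B p.1 : ℂ) * ((Real.log ((p.1 : ℕ) : ℝ) : ℝ) : ℂ) * ((p.1 : ℕ) : ℂ) ^ (-s)) (G s)) ∧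
      MeromorphicOn G {s : ℂ | 11 / 6 < s.re} ∧
      (∀ s : ℂ, 2 ≤ s.re → s ≠ 2 → AnalyticAt ℂ G s) ∧
      Tendsto (fun s : ℂ => (s - 2) * G s) (𝓝[≠] 2) (𝓝 ((m : ℂ) + (m.choose 2 : ℂ) *
        ((Module.finrank ℤ
            ((EE a (r + 1)).map (algebraMap (RF (r + 1) a) K')).toAffine.Point : ℂ) -
          (Module.finrank ℤ ((EE a r).map (algebraMap (RF r a) K)).toAffine.Point : ℂ)))) := by
  obtain ⟨-, -, h3⟩ := algebraic τ a r hr K
  obtain ⟨-, -, h3'⟩ := algebraic τ a (r + 1) (by omega) K'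
  refine ⟨by rw [h3, h3'], ?_⟩
  rw [h3, h3']
  obtain ⟨C', hC', h4⟩ := avgB_bound τ a ha r m
  have hp0 : ∀ p : Nat.Primes, (0 : ℝ) < ((p : ℕ) : ℝ) := fun p => by exact_mod_cast p.2.pos
  obtain ⟨G, g1, g2, g3, g4⟩ := residue (fun p => B p / (p : ℕ)) S ((m : ℝ) + (m.choose 2 : ℝ))
    (C + C') (by
    intro p hpS
    have h5 := hB p hpS
    have h6 := h4 p
    have hp := hp0 p
    have hsq : 0 < Real.sqrt (p : ℕ) := Real.sqrt_pos.2 hp
    have h7 : B p / (p : ℕ) - ((m : ℝ) + (m.choose 2 : ℝ)) =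
        (B p - ((m : ℝ) + (m.choose 2 : ℝ)) * (p : ℕ)) / (p : ℕ) := by
      field_simp
    have h8 : |B p - ((m : ℝ) + (m.choose 2 : ℝ)) * (p : ℕ)| ≤ (C + C') * Real.sqrt (p : ℕ) := by
      have h9 : B p - ((m : ℝ) + (m.choose 2 : ℝ)) * (p : ℕ) =
          (B p - avgB (EE a r) (NE a r) (Fintype.card τ + r + 1) m p) +
          (avgB (EE a r) (NE a r) (Fintype.card τ + r + 1) m p -
            ((m : ℝ) + (m.choose 2 : ℝ)) * (p : ℕ)) := by ring
      rw [h9]
      refine (abs_add_le _ _).trans ((add_le_add h5 h6).trans (le_of_eq ?_))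
      ring
    rw [h7, abs_div, abs_of_pos hp, div_le_iff₀ hp, Real.rpow_neg hp.le, ← Real.sqrt_eq_rpow]
    refine h8.trans (le_of_eq ?_)
    rw [mul_assoc]
    congr 1
    rw [inv_mul_eq_div, Real.div_sqrt])
  refine ⟨fun s => G (s - 1), ?_, ?_, ?_, ?_⟩
  · intro s hs
    have h5 := g1 (s - 1) (by simp; linarith)
    have h6 : (fun p : {p : Nat.Primes // p ∉ S} =>
        (B p.1 : ℂ) * ((Real.log ((p.1 : ℕ) : ℝ) : ℝ) : ℂ) * ((p.1 : ℕ) : ℂ) ^ (-s)) =
        fun p : {p : Nat.Primes // p ∉ S} => (((B p.1 / (p.1 : ℕ) : ℝ)) : ℂ) *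
        ((Real.log ((p.1 : ℕ) : ℝ) : ℝ) : ℂ) * ((p.1 : ℕ) : ℂ) ^ (-(s - 1)) := by
      funext p
      have hp : ((p.1 : ℕ) : ℂ) ≠ 0 := by exact_mod_cast p.1.2.pos.ne'
      have h7 : ((p.1 : ℕ) : ℂ) ^ (-(s - 1)) = ((p.1 : ℕ) : ℂ) * ((p.1 : ℕ) : ℂ) ^ (-s) := by
        rw [show -(s - 1) = 1 + -s by ring, Complex.cpow_add _ _ hp, Complex.cpow_one]
      rw [h7]
      push_cast
      field_simp
    rw [h6]
    exact h5
  · intro s hs
    have h5 : (s - 1 : ℂ) ∈ {s : ℂ | 5 / 6 < s.re} := by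
      simp only [Set.mem_ofPred_eq] at hs ⊢
      simp
      linarith
    have h6 : AnalyticAt ℂ (fun s : ℂ => s - 1) s := by fun_prop
    exact MeromorphicAt.comp_analyticAt (f := G) (g := fun s : ℂ => s - 1) (x := s) (g2 _ h5) h6
  · intro s hs hs2
    have h5 := g3 (s - 1) (by simp; linarith) (fun h => hs2 (by linear_combination h))
    have h6 : AnalyticAt ℂ (fun s : ℂ => s - 1) s := by fun_prop
    exact h5.comp_of_eq h6 rfl
  · have h5 : Tendsto (fun s : ℂ => s - 1) (𝓝[≠] 2) (𝓝[≠] 1) := by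
      apply tendsto_nhdsWithin_of_tendsto_nhds_of_eventually_within
      · have : Tendsto (fun s : ℂ => s - 1) (𝓝 2) (𝓝 (2 - 1)) :=
          (continuous_id.sub continuous_const).tendsto 2
        rw [show (2 : ℂ) - 1 = 1 by norm_num] at this
        exact this.mono_left nhdsWithin_le_nhds
      · filter_upwards [self_mem_nhdsWithin] with s hs
        intro h
        apply hs
        rw [Set.mem_singleton_iff] at h ⊢
        linear_combination h
    have h6 := g4.comp h5
    have h7 : (((m : ℝ) + (m.choose 2 : ℝ) : ℝ) : ℂ) =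
        (m : ℂ) + (m.choose 2 : ℂ) * (((r + 1 : ℕ) : ℂ) - (r : ℂ)) := by
      push_cast
      ring
    rw [h7] at h6
    refine h6.congr fun s => ?_
    simp only [Function.comp]
    ring

end Pool.Agent.Results.MP_6090f9_nt.FibrePowersSquares
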