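import Pool.Agent.TH820.LG.TC2

/-!
# The residue formula for Frobenius averages over layers of odd degree

`f : 𝒳 → 𝒴` is a fibration over a number field `K`, given over an affine open part of `𝒴` over which the
fibres are smooth, and `W` is the space `NS(X / K̄(𝒴)) ⊗ ℚ` with the action of the absolute Galois group
of `K`, for the generic fibre `X`.  For a number field `E ⊇ K` the rank of `NS(X / E(𝒴))` is
`dim W^{Gal(K̄/E)}`, and Q1 for `f` over `E` says that the residue at `s = 2` of the Dirichlet series
`F(s) = ∑ 𝔅_w (log q_w) q_w^{-s}` over the primes `w` of `E` is this rank.  With the values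
`z_w = 𝔅_w / q_w`, `(s - 1) ∑ z_w (log q_w) q_w^{-s}` is the value of `(s' - 2) F(s')` at `s' = s + 1`.
The definitions are in `Pool.Agent.TH820.LG.ResLayerDefs`, `Pool.Agent.TH820.LG.ResDefs`,
`Pool.Agent.TH820.LG.LayerDefs`, `Pool.Agent.TH526.DS.CamDefs`, `Pool.Agent.W353.FB.Defs`,
`Pool.Agent.W353.AT.TDefs`, `Pool.Agent.W353.AT.Defs` and `Pool.Agent.W353.TD.Defs`.
-/

set_option autoImplicit false

namespace Pool.Agent.Results.MP_6090f9_nt.OddLayers

open NumberField Pool.Agent.W353.FB

/-- **The residues of the averages on `H²` over layers of odd degree.**  Let `f` be a fibration over a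
number field `K`, `W` a part of the values `z_v = 𝔅_v / q_v`, given by `N` numbers of absolute value
`≤ 1`, and `N - dim W ≤ 2`.  Let `M ⊆ F` be finite Galois extensions of `K` such that `[F : M]` is odd.
Suppose that the residue of the series twisted by `χ` exists along the real axis and is an integer, for
all irreducible `χ` of `Gal(F/K)`.  Then there is a Galois extension `C/K` with `M ⊆ C ⊆ F` and `C/M`
cyclic, such that
* the residue is `dim (W ⊗ χ)^{Gal(K̄/K)}` for all `χ` not trivial on `Gal(F/C)`;
* for any field `E` with `K ⊆ E ⊆ F` the difference between `residue - rank` over `E` and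
  `residue - rank` over `E ∩ C` tends to `0`. -/
theorem result (K : Type) [Field K] [NumberField K] (f : Fibration K) (N : ℕ)
    (W : Type) [AddCommGroup W] [Module ℚ W] [FiniteDimensional ℚ W]
    (ρ : Representation ℚ Gal(AlgebraicClosure K/K) W)
    (hW : IsPartOf (degreeTwoValue f) N ρ) (hN : N ≤ Module.finrank ℚ W + 2) :
    Pool.Agent.TH820.LG.OddLayerResidues (degreeTwoValue f) ρ :=
  Pool.Agent.TH820.LG.oddLayerResidues (degreeTwo_uniq f) hW hN

end Pool.Agent.Results.MP_6090f9_nt.OddLayers
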