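import Pool.Agent.TH820.LG.TC2

/-!
# The residue formula for Frobenius averages over the intermediate fields of a Galois extension

`f : 𝒳 → 𝒴` is a fibration over a number field `K`, given over an affine open part of `𝒴` over which the
fibres are smooth, and `W` is the space `NS(X / K̄(𝒴)) ⊗ ℚ` with the action of the absolute Galois group
of `K`, for the generic fibre `X`.  For a number field `E ⊇ K` the rank of `NS(X / E(𝒴))` is
`dim W^{Gal(K̄/E)}`, and Q1 for `f` over `E` says that the residue at `s = 2` of the Dirichlet series
`F(s) = ∑ 𝔅_w (log q_w) q_w^{-s}` over the primes `w` of `E` is this rank.  With the values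
`z_w = 𝔅_w / q_w`, `(s - 1) ∑ z_w (log q_w) q_w^{-s}` is the value of `(s' - 2) F(s')` at `s' = s + 1`.
The definitions are in `Pool.Agent.TH820.LG.ResTowerDefs`, `Pool.Agent.TH820.LG.ResDefs`,
`Pool.Agent.TH820.LG.NilTowerDefs`, `Pool.Agent.TH820.LG.NilDefs`, `Pool.Agent.TH820.LG.TowerDefs`,
`Pool.Agent.TH820.LG.ExtDefs`, `Pool.Agent.TH820.LG.Defs`, `Pool.Agent.W353.FB.Defs`,
`Pool.Agent.W353.AT.TDefs`, `Pool.Agent.W353.AT.Defs` and `Pool.Agent.W353.TD.Defs`.
-/

set_option autoImplicit false

namespace Pool.Agent.Results.MP_6090f9_nt.TowerResidues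

open NumberField Pool.Agent.W353.FB

/-- **The residues of the averages on `H²` over towers over nilpotent extensions.**  For every `s` there
is `n₀` with the following property.  Let `f` be a fibration over a number field `K`, `W` a part of the
values `z_v = 𝔅_v / q_v`, given by `N` numbers of absolute value `≤ 1`, and `N - dim W ≤ s`.  Let `n ≥ n₀`
and let `F` be a finite Galois extension of `K` whose group has a series of normal subgroups with factors
that are quotients of `SL_m(k)` or `A_m`, `m ≥ n` (with the action of `Gal(F/K)` through `GL_m(k)` or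
`S_m`), down to a nilpotent quotient `Γ` such that all primes dividing `|Γ / Z(Γ)|` are larger than `4s²`.
Suppose that the residue of the series twisted by `χ` exists along the real axis and is an integer, for
all irreducible `χ` of `Gal(F/K)` of dimension `≠ 1`.  Then it is `dim (W ⊗ χ)^{Gal(K̄/K)}` for all these
`χ`; and for every field `E` with `K ⊆ E ⊆ F`, with the largest subfield `E₀` abelian over `K`, the
difference between `residue - rank` over `E` and `residue - rank` over `E₀` tends to `0`. -/
theorem result (s : ℕ) : ∃ n₀ : ℕ, ∀ (K : Type) [Field K] [NumberField K] (f : Fibration K)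
    (N : ℕ) (W : Type) [AddCommGroup W] [Module ℚ W] [FiniteDimensional ℚ W]
    (ρ : Representation ℚ Gal(AlgebraicClosure K/K) W), IsPartOf (degreeTwoValue f) N ρ →
    N ≤ Module.finrank ℚ W + s →
    Pool.Agent.TH820.LG.NilpotentTowerResidues (degreeTwoValue f) ρ s n₀ := by
  obtain ⟨n₀, h⟩ := Pool.Agent.TH820.LG.nilTowerResidues s
  exact ⟨n₀, fun K _ _ f N W _ _ _ ρ hW hN => h K N _ W ρ (degreeTwo_uniq f) hW hN⟩

end Pool.Agent.Results.MP_6090f9_nt.TowerResidues
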